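import Pool.Agent.H10R3.SC.TFind
import Pool.Agent.H10R3.SC.Crit
import Pool.Agent.H10R3.SC.Kempe
import Pool.Agent.TH583.FO.Conv

set_option autoImplicit false
set_option linter.unusedSectionVars false

/-!
# Sets of at most eight vertices of a bridgeless cubic graph induce 3-edge-colourable graphs

A minimal subgraph `B` that is not 3-edge-colourable has `n2` vertices of degree two and `n3 ≥ 2 n2`
vertices of degree three, so with at most eight vertices `n2 ≤ 2`, and at most two edges leave its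
vertex set `X`. A vertex set `S ⊆ X` of an odd circuit of a 2-factor which at least five edges leave
has a complement in `X` of three vertices, and these complements are disjoint. So there are at most
two such sets `S`, and the theorem of helper583 (`Pool.Agent.TH583.FO`) colours `B`.
-/

open Finset

namespace Pool.Agent.Y392.FC

open Pool.Agent.Helper347.Sab
open Pool.Agent.H10R3.SC
open Pool.Agent.H10R3.SC.Find (dg_mono handshake exists_min filter_eq_of_le)

variable {V E : Type} [Fintype V] [DecidableEq V] [Fintype E] [DecidableEq E]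

/-- `F` is a 2-factor and `S` is closed under its edges -/
structure Cl (G : MGraph V E) (F : Finset E) (S : Finset V) : Prop where
  two : ∀ v, dg G F v = 2
  cl : ∀ e ∈ F, ∀ u ∈ G.ends e, ∀ w ∈ G.ends e, u ∈ S → w ∈ S

theorem one_off (G : MGraph V E) (hG : IsCubic G) (F : Finset E) (hF : ∀ v, dg G F v = 2) (v : V) :
    (univ.filter fun e => e ∉ F ∧ v ∈ G.ends e).card = 1 := by
  have h1 := hG v
  have h2 := hF v
  unfold dg at h1 h2
  have h3 : (univ.filter fun e => v ∈ G.ends e) =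
      (F.filter fun e => v ∈ G.ends e) ∪ (univ.filter fun e => e ∉ F ∧ v ∈ G.ends e) := by
    ext e
    simp only [mem_filter, mem_univ, true_and, mem_union]
    tauto
  have h4 : Disjoint (F.filter fun e => v ∈ G.ends e)
      (univ.filter fun e => e ∉ F ∧ v ∈ G.ends e) := by
    rw [disjoint_left]
    intro e h5 h6
    exact (mem_filter.1 h6).2.1 (mem_filter.1 h5).1
  rw [h3, card_union_of_disjoint h4] at h1
  omega

theorem mem_cutU {G : MGraph V E} {Y : Finset V} {e : E} :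
    e ∈ cut G univ Y ↔ (∃ u, u ∈ G.ends e ∧ u ∈ Y) ∧ ∃ w, w ∈ G.ends e ∧ w ∉ Y := by
  unfold cut
  rw [mem_filter]
  exact ⟨fun h => h.2, fun h => ⟨mem_univ _, h⟩⟩

theorem cut_not (G : MGraph V E) (F : Finset E) (S : Finset V) (h : Cl G F S) (e : E)
    (he : e ∈ cut G univ S) : e ∉ F := by
  intro hF
  obtain ⟨⟨u, hu, huS⟩, w, hw, hwS⟩ := mem_cutU.1 he
  exact hwS (h.cl e hF u hu w hw huS)

theorem card_bi (G : MGraph V E) (hG : IsCubic G) (F : Finset E) (hF : ∀ v, dg G F v = 2)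
    (Y : Finset V) (L : Finset E) (hL : ∀ e ∈ L, e ∉ F ∧ ∃ y ∈ Y, y ∈ G.ends e) :
    L.card ≤ Y.card := by
  have hsub : L ⊆ Y.biUnion fun y => univ.filter fun e => e ∉ F ∧ y ∈ G.ends e := by
    intro e he
    obtain ⟨h1, y, hy, hye⟩ := hL e he
    exact mem_biUnion.2 ⟨y, hy, mem_filter.2 ⟨mem_univ _, h1, hye⟩⟩
  refine (card_le_card hsub).trans ?_
  have := card_biUnion_le_card_mul Y (fun y => univ.filter fun e => e ∉ F ∧ y ∈ G.ends e) 1
    (fun y _ => (one_off G hG F hF y).le)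
  simpa using this

theorem struct (G : MGraph V E) (hG : IsCubic G) (F : Finset E) (X S : Finset V) (hcl : Cl G F S)
    (hSX : S ⊆ X) (hX8 : X.card ≤ 8) (hX2 : (cut G univ X).card ≤ 2)
    (h5 : 5 ≤ (cut G univ S).card) :
    (X \ S).card = 3 ∧ ∀ y ∈ X \ S, ∀ e ∈ F, y ∈ G.ends e → ∀ w ∈ G.ends e, w ∈ X \ S := by
  classical
  have hS5 : (cut G univ S).card ≤ S.card := by
    apply card_bi G hG F hcl.two
    intro e he
    obtain ⟨⟨u, hu, huS⟩, _⟩ := mem_cutU.1 he
    exact ⟨cut_not G F S hcl e he, u, huS, hu⟩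
  have hL1 : ((cut G univ S).filter fun e => ∃ y ∈ X \ S, y ∈ G.ends e).card ≤ (X \ S).card := by
    apply card_bi G hG F hcl.two
    intro e he
    rw [mem_filter] at he
    exact ⟨cut_not G F S hcl e he.1, he.2⟩
  have hsub : ((cut G univ S).filter fun e => ¬ ∃ y ∈ X \ S, y ∈ G.ends e) ⊆ cut G univ X := by
    intro e he
    rw [mem_filter] at he
    obtain ⟨⟨u, hu, huS⟩, w, hw, hwS⟩ := mem_cutU.1 he.1
    refine mem_cutU.2 ⟨⟨u, hu, hSX huS⟩, w, hw, ?_⟩
    intro hwX
    exact he.2 ⟨w, mem_sdiff.2 ⟨hwX, hwS⟩, hw⟩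
  have hsum := card_filter_add_card_filter_not (s := cut G univ S)
    (fun e => ∃ y ∈ X \ S, y ∈ G.ends e)
  have hsd := card_sdiff_of_subset hSX
  have hle := card_le_card hSX
  have hL2 := card_le_card hsub
  have h3 : (X \ S).card = 3 := by omega
  refine ⟨h3, ?_⟩
  have hEq : ((cut G univ S).filter fun e => ¬ ∃ y ∈ X \ S, y ∈ G.ends e) = cut G univ X :=
    eq_of_subset_of_card_le hsub (by omega)
  intro y hy e he hye w hw
  rw [mem_sdiff] at hy ⊢
  refine ⟨?_, fun hwS => hy.2 (hcl.cl e he w hw y hye hwS)⟩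
  by_contra hwX
  have h4 : e ∈ cut G univ X := mem_cutU.2 ⟨⟨y, hye, hy.1⟩, w, hw, hwX⟩
  rw [← hEq, mem_filter] at h4
  exact cut_not G F S hcl e h4.1 he

theorem disj (G : MGraph V E) (hG : IsCubic G) (X S1 S2 : Finset V) (F1 F2 : Finset E)
    (c1 : Cl G F1 S1) (c2 : Cl G F2 S2) (p1 : (X \ S1).card = 3) (p2 : (X \ S2).card = 3)
    (q1 : ∀ y ∈ X \ S1, ∀ e ∈ F1, y ∈ G.ends e → ∀ w ∈ G.ends e, w ∈ X \ S1)
    (q2 : ∀ y ∈ X \ S2, ∀ e ∈ F2, y ∈ G.ends e → ∀ w ∈ G.ends e, w ∈ X \ S2)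
    (hne : X \ S1 ≠ X \ S2) : Disjoint (X \ S1) (X \ S2) := by
  classical
  by_contra hcon
  obtain ⟨v, hv1, hv2⟩ := not_disjoint_iff.1 hcon
  obtain ⟨e, he1, he2, hve⟩ : ∃ e, e ∈ F1 ∧ e ∈ F2 ∧ v ∈ G.ends e := by
    by_contra hno
    push Not at hno
    have hd : Disjoint (F1.filter fun e => v ∈ G.ends e) (F2.filter fun e => v ∈ G.ends e) := by
      rw [disjoint_left]
      intro e h1 h2
      rw [mem_filter] at h1 h2
      exact hno e h1.1 h2.1 h1.2
    have hsub : (F1.filter fun e => v ∈ G.ends e) ∪ (F2.filter fun e => v ∈ G.ends e) ⊆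
        univ.filter fun e => v ∈ G.ends e := by
      intro e h
      rw [mem_union, mem_filter, mem_filter] at h
      rw [mem_filter]
      exact ⟨mem_univ _, h.elim (fun h => h.2) (fun h => h.2)⟩
    have h1 := card_le_card hsub
    rw [card_union_of_disjoint hd] at h1
    have h2 := c1.two v
    have h3 := c2.two v
    have h4 := hG v
    unfold dg at h2 h3 h4
    omega
  obtain ⟨w, hwe, hwv⟩ : ∃ w ∈ G.ends e, w ≠ v := by
    obtain ⟨a, b, hab, hE⟩ := exists_ends G e
    rw [hE] at hve ⊢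
    rw [Sym2.mem_iff] at hve
    rcases hve with h | h
    · exact ⟨b, Sym2.mem_mk_right _ _, by rw [h]; exact hab.symm⟩
    · exact ⟨a, Sym2.mem_mk_left _ _, by rw [h]; exact hab⟩
  have hw1 := q1 v hv1 e he1 hve w hwe
  have hw2 := q2 v hv2 e he2 hve w hwe
  obtain ⟨b, hb2, hb1⟩ : ∃ b, b ∈ X \ S2 ∧ b ∉ X \ S1 := by
    by_contra hno
    push Not at hno
    exact hne (eq_of_subset_of_card_le (fun x hx => hno x hx) (by omega)).symm
  have hbv : b ≠ v := fun h => hb1 (h ▸ hv1)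
  have hbw : b ≠ w := fun h => hb1 (h ▸ hw1)
  have hT2 : ({b, v, w} : Finset V) = X \ S2 := by
    apply eq_of_subset_of_card_le
    · intro x hx
      rw [mem_insert, mem_insert, mem_singleton] at hx
      rcases hx with rfl | rfl | rfl
      · exact hb2
      · exact hv2
      · exact hw2
    · rw [p2, card_insert_of_notMem, card_pair hwv.symm]
      rw [mem_insert, mem_singleton]
      rintro (h | h)
      · exact hbv h
      · exact hbw h
  have hbS : b ∈ S1 := by
    by_contra h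
    exact hb1 (mem_sdiff.2 ⟨(mem_sdiff.1 hb2).1, h⟩)
  have hF2 : ∀ f ∈ F2, b ∈ G.ends f → f ∉ F1 := by
    intro f hf hbf hf1
    obtain ⟨z, hz, hzb⟩ : ∃ z ∈ G.ends f, z ≠ b := by
      obtain ⟨a, c, hac, hE⟩ := exists_ends G f
      rw [hE] at hbf ⊢
      rw [Sym2.mem_iff] at hbf
      rcases hbf with h | h
      · exact ⟨c, Sym2.mem_mk_right _ _, by rw [h]; exact hac.symm⟩
      · exact ⟨a, Sym2.mem_mk_left _ _, by rw [h]; exact hac⟩
    have hz2 := q2 b hb2 f hf hbf z hz
    rw [← hT2, mem_insert, mem_insert, mem_singleton] at hz2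
    have hzS := c1.cl f hf1 b hbf z hz hbS
    rcases hz2 with h | h | h
    · exact hzb h
    · rw [h] at hzS
      exact (mem_sdiff.1 hv1).2 hzS
    · rw [h] at hzS
      exact (mem_sdiff.1 hw1).2 hzS
  have h1 := one_off G hG F1 c1.two b
  have h2 := c2.two b
  unfold dg at h2
  have h3 : (F2.filter fun f => b ∈ G.ends f) ⊆ univ.filter fun f => f ∉ F1 ∧ b ∈ G.ends f := by
    intro f hf
    rw [mem_filter] at hf
    exact mem_filter.2 ⟨mem_univ _, hF2 f hf.1 hf.2, hf.2⟩
  have h4 := card_le_card h3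
  omega

theorem few (G : MGraph V E) (hG : IsCubic G) (X : Finset V) (hX8 : X.card ≤ 8)
    (hX2 : (cut G univ X).card ≤ 2) (T : Finset (Finset V))
    (hT : ∀ S ∈ T, S ⊆ X ∧ (∃ F, Cl G F S) ∧ 5 ≤ (cut G univ S).card) : T.card ≤ 3 := by
  have key : ∀ S ∈ T, (X \ S).card = 3 ∧ ∃ F, Cl G F S ∧
      ∀ y ∈ X \ S, ∀ e ∈ F, y ∈ G.ends e → ∀ w ∈ G.ends e, w ∈ X \ S := by
    intro S hS
    obtain ⟨h1, ⟨F, hF⟩, h2⟩ := hT S hS
    obtain ⟨h3, h4⟩ := struct G hG F X S hF h1 hX8 hX2 h2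
    exact ⟨h3, F, hF, h4⟩
  have hcard : (T.biUnion fun S => X \ S).card = ∑ S ∈ T, (X \ S).card := by
    apply card_biUnion
    intro S1 h1 S2 h2 hne
    obtain ⟨a1, F1, b1, d1⟩ := key S1 h1
    obtain ⟨a2, F2, b2, d2⟩ := key S2 h2
    apply disj G hG X S1 S2 F1 F2 b1 b2 a1 a2 d1 d2
    intro heq
    apply hne
    have e1 := Finset.sdiff_sdiff_eq_self (hT S1 h1).1
    have e2 := Finset.sdiff_sdiff_eq_self (hT S2 h2).1
    rw [← e1, ← e2, heq]
  have h3 : ∑ S ∈ T, (X \ S).card = T.card * 3 := by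
    rw [sum_congr rfl fun S hS => (key S hS).1, sum_const, smul_eq_mul]
  have h4 : (T.biUnion fun S => X \ S).card ≤ X.card :=
    card_le_card (biUnion_subset.2 fun S _ => sdiff_subset)
  omega

/-- **Small sets.** -/
theorem small (G : MGraph V E) (hG : IsCubic G)
    (hbr : ∀ e : E, ∃ X : Finset E, IsCircuit G X ∧ e ∈ X) (K : Finset V) (hK : K.card ≤ 8) :
    Clb G (ins G univ K) := by
  classical
  by_contra hn
  obtain ⟨B, hBs, hBn, hBm⟩ := exists_min G _ hn
  have hB3 : ∀ v, dg G B v ≤ 3 := fun v => (dg_mono G (subset_univ B) v).trans (hG v).le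
  obtain ⟨hd1, hB4, hcount⟩ := crit kempe V E G B hB3 hBn hBm
  obtain ⟨N2, hN2⟩ : ∃ N2 : Finset V, N2 = univ.filter fun v => dg G B v = 2 := ⟨_, rfl⟩
  obtain ⟨N3, hN3⟩ : ∃ N3 : Finset V, N3 = univ.filter fun v => dg G B v = 3 := ⟨_, rfl⟩
  rw [← hN2, ← hN3] at hcount
  have m2 : ∀ v, v ∈ N2 ↔ dg G B v = 2 := fun v => by rw [hN2]; simp
  have m3 : ∀ v, v ∈ N3 ↔ dg G B v = 3 := fun v => by rw [hN3]; simp
  have hmem : ∀ v, v ∈ N2 ∪ N3 ↔ dg G B v ≠ 0 := by
    intro v
    have h1 := hd1 v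
    have h3 := hB3 v
    rw [mem_union, m2, m3]
    omega
  have hX0 : N2 ∪ N3 ⊆ K := by
    intro v hv
    obtain ⟨e, he⟩ := card_pos.1 (Nat.pos_of_ne_zero ((hmem v).1 hv))
    rw [mem_filter] at he
    exact (mem_filter.1 (hBs he.1)).2 v he.2
  have hdisj : Disjoint N2 N3 := by
    rw [disjoint_left]
    intro v h2 h3
    rw [m2] at h2
    rw [m3] at h3
    omega
  have hX8 := (card_le_card hX0).trans hK
  have hcu := card_union_of_disjoint hdisj
  have hn2 : N2.card ≤ 2 := by omega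
  have hcut : (cut G univ (N2 ∪ N3)).card ≤ N2.card := by
    have hsub : cut G univ (N2 ∪ N3) ⊆
        N2.biUnion (fun u => (univ \ B).filter (fun e => u ∈ G.ends e)) := by
      intro e he
      obtain ⟨⟨u, hu, huX⟩, w, hw, hwX⟩ := mem_cutU.1 he
      have heB : e ∉ B := by
        intro heB
        apply hwX
        rw [hmem]
        exact (card_pos.2 ⟨e, mem_filter.2 ⟨heB, hw⟩⟩).ne'
      have hu2 : u ∈ N2 := by
        rcases mem_union.1 huX with h2 | h3
        · exact h2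
        · exfalso
          have hv3 : dg G B u = 3 := (m3 u).1 h3
          exact heB (filter_eq_of_le G (subset_univ B) u (by rw [hv3]; exact (hG u).le)
            (mem_univ e) hu)
      exact mem_biUnion.2 ⟨u, hu2, mem_filter.2 ⟨mem_sdiff.2 ⟨mem_univ _, heB⟩, hu⟩⟩
    refine (card_le_card hsub).trans ?_
    have := card_biUnion_le_card_mul N2
      (fun u => (univ \ B).filter (fun e => u ∈ G.ends e)) 1 (by
        intro u hu
        have hu2 : dg G B u = 2 := (m2 u).1 hu
        have hsd : (univ \ B).filter (fun e => u ∈ G.ends e) =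
            univ.filter (fun e => u ∈ G.ends e) \ B.filter (fun e => u ∈ G.ends e) := by
          ext e
          simp only [mem_filter, mem_sdiff]
          tauto
        show ((univ \ B).filter (fun e => u ∈ G.ends e)).card ≤ 1
        rw [hsd, card_sdiff_of_subset (filter_subset_filter _ (subset_univ B))]
        have h3 := hG u
        unfold dg at h3 hu2
        omega)
    simpa using this
  have hl : ∀ S, (Pool.Agent.TH583.FO.orient G).cut S = cut G univ S := by
    intro S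
    rw [Pool.Agent.TH583.FO.cutM_eq]
    rfl
  have hlt := Pool.Agent.TH583.FO.few_threeM G hG hbr
    ((Pool.Agent.TH583.FO.allOdd (Pool.Agent.TH583.FO.orient G)).filter (fun S => S ⊆ N2 ∪ N3))
    (fun S hS => ((Pool.Agent.TH583.FO.odd_iff G S).1 (mem_filter.1 hS).1).1) (by
      apply few G hG (N2 ∪ N3) hX8 (hcut.trans hn2)
      intro S hS
      rw [mem_filter, mem_filter, Pool.Agent.TH583.FO.odd_iff, hl] at hS
      obtain ⟨⟨⟨_, F, hF, v, hv⟩, h2⟩, h3⟩ := hS
      refine ⟨h2, ⟨F, hF, ?_⟩, h3⟩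
      intro e he u hu w hw huS
      by_cases huw : u = w
      · rw [← huw]; exact huS
      · rw [hv] at huS ⊢
        exact huS.tail ⟨e, he, (Sym2.mem_and_mem_iff huw).1 ⟨hu, hw⟩⟩)
  obtain ⟨col, hcol⟩ := Pool.Agent.TH583.FO.colourM G hG hbr (N2 ∪ N3) hlt
  apply hBn
  refine ⟨col, fun v e f he _ hve hvf hef => hcol v ?_ e f hve hvf hef⟩
  rw [hmem]
  exact (card_pos.2 ⟨e, mem_filter.2 ⟨he, hve⟩⟩).ne'

end Pool.Agent.Y392.FC
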